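import Pool.Agent.K1H2.BI.Pieces

/-!
# Branching internal DLA on `Z^3`: both deviations exceed `K * sqrt r` infinitely often

The particles of the current branching random walk are processed in the order in which their
clocks ring (`pick` chooses one of the active particles uniformly at random).
-/

namespace Pool.Agent.Results.MP_1354f0_pr.AlmostSurely

open MeasureTheory ProbabilityTheory Filter
open Pool.Agent.K1H2.BI

universe u

/-- In branching internal DLA on `Z^3`, for every critical non-degenerate offspring law with finite
second moment, almost surely every branching random walk stops, and for every `K` the inner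
deviation and the outer deviation of `A(t)` from the ball of volume `t` are both at least
`K * sqrt (r t)` for infinitely many `t`. -/
theorem result {Ω : Type u} [MeasurableSpace Ω] (P : Measure Ω) [IsProbabilityMeasure P]
    (ν : PMF ℕ) (hν : Crit ν) (ins : ℕ → Ω → Inst) (hins : Drawn P ν ins) :
    ∀ᵐ ω ∂P, (∀ t : ℕ, 1 ≤ t → ∃ n, (X (fun j => ins j ω) n).t = t) ∧ ∀ K : ℝ,
      (∃ᶠ t : ℕ in atTop, K * Real.sqrt (rad t) ≤ devI (agg (fun j => ins j ω) t) t) ∧
      (∃ᶠ t : ℕ in atTop, K * Real.sqrt (rad t) ≤ devO (agg (fun j => ins j ω) t) t) := by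
  obtain ⟨h1, h2, -⟩ := p_FINAL Ω P ν ins hν hins
  filter_upwards [h1, h2] with ω h3 h4
  exact ⟨h3, h4⟩

end Pool.Agent.Results.MP_1354f0_pr.AlmostSurely
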