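import Pool.Agent.K1H2.BI.Pieces

/-!
# Branching internal DLA on `Z^3`: the largest deviation at every large time
-/

namespace Pool.Agent.Results.MP_1354f0_pr.HighProbability

open MeasureTheory ProbabilityTheory Filter
open Pool.Agent.K1H2.BI

universe u

/-- In branching internal DLA on `Z^3`, for every critical non-degenerate offspring law with finite
second moment and every `η > 0` there is `ε > 0` such that for every large `t` the larger of the
inner and the outer deviation of `A(t)` from the ball of volume `t` is at least
`ε * sqrt (r t)` with probability at least `1 - η`. -/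
theorem result {Ω : Type u} [MeasurableSpace Ω] (P : Measure Ω) [IsProbabilityMeasure P]
    (ν : PMF ℕ) (hν : Crit ν) (ins : ℕ → Ω → Inst) (hins : Drawn P ν ins) (η : ℝ) (hη : 0 < η) :
    ∃ ε : ℝ, 0 < ε ∧ ∀ᶠ t : ℕ in atTop, 1 - η ≤ P.real {ω |
      ε * Real.sqrt (rad t) ≤ devI (agg (fun j => ins j ω) t) t ∨
      ε * Real.sqrt (rad t) ≤ devO (agg (fun j => ins j ω) t) t} :=
  p_HIGHP Ω P ν ins hν hins η hη

end Pool.Agent.Results.MP_1354f0_pr.HighProbability
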