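import Pool.Agent.K1H2.UB.Final

/-!
# Branching internal DLA on `Z^3`: the exponent of the inner deviation is `1/2`

The particles of the current branching random walk are processed in the order in which their
clocks ring (`pick` chooses one of the active particles uniformly at random).
-/

namespace Pool.Agent.Results.MP_1354f0_pr.InnerExponent

open MeasureTheory ProbabilityTheory Filter
open Pool.Agent.K1H2.BI

universe u

/-- In branching internal DLA on `Z^3`, for every offspring law that satisfies (H), the inner
deviation of `A(t)` from the ball of volume `t` is at most `C * sqrt r * log r` up to an event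
whose probability is at most `t ^ (-k)` (`C` depends on `k`); almost surely it is at most
`C * sqrt r * log r` for all large `t`, and the limit superior of its logarithm divided by the
logarithm of the radius `r = r t` is equal to `1 / 2`. -/
theorem result {Ω : Type u} [MeasurableSpace Ω] (P : Measure Ω) [IsProbabilityMeasure P]
    (ν : PMF ℕ) (hν : Pool.Agent.K1H53.BI.CondH ν) (ins : ℕ → Ω → Inst) (hins : Drawn P ν ins) :
    (∀ k : ℕ, ∃ C : ℝ, 0 < C ∧ ∀ᶠ t : ℕ in atTop,
      P.real {ω | C * Real.sqrt (rad t) * Real.log (rad t) ≤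
        devI (agg (fun j => ins j ω) t) t} ≤ 1 / (t : ℝ) ^ k) ∧
    (∃ C : ℝ, 0 < C ∧ ∀ᵐ ω ∂P, ∀ᶠ t : ℕ in atTop,
      devI (agg (fun j => ins j ω) t) t ≤ C * Real.sqrt (rad t) * Real.log (rad t)) ∧
    ∀ᵐ ω ∂P, limsup (fun t : ℕ => Real.log (devI (agg (fun j => ins j ω) t) t) /
      Real.log (rad t)) atTop = 1 / 2 := by
  obtain ⟨-, h, -⟩ := p_FINAL Ω P ν ins (Pool.Agent.K1H2.UB.crit_of_condH hν) hins
  refine Pool.Agent.K1H2.UB.final_of Pool.Agent.K1H2.UB.p_ub2 Pool.Agent.K1H2.UB.p_lnk P ν hν
    ins hins ?_
  filter_upwards [h] with ω hω K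
  exact (hω K).1

end Pool.Agent.Results.MP_1354f0_pr.InnerExponent
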